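import Pool.Agent.N804.PV.StmW
import Pool.Agent.N804.FEnd

set_option autoImplicit false

/-! # Abstract one-sided functionals on windows of one length -/

namespace Pool.Agent.N93.PX6

open Filter Topology Set MeasureTheory
open Pool.Agent.N804 Pool.Agent.N804.PV

/-- linear functionals -/
structure LGD (D : (ℝ → ℝ) → ℝ) : Prop where
  add : ∀ r s : ℝ → ℝ, SC r → SC s → D (fun α => r α + s α) = D r + D s
  mul : ∀ (c : ℝ) (r : ℝ → ℝ), SC r → D (fun α => c * r α) = c * D r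
  neg : ∀ r : ℝ → ℝ, SC r → D (fun α => r (-α)) = D r

lemma LD_add {D : (ℝ → ℝ) → ℝ} (hG : LGD D) {r s : ℝ → ℝ} (H : SC r) (H' : SC s) :
    D (fun α => r α + s α) = D r + D s := hG.add r s H H'

lemma LD_mul {D : (ℝ → ℝ) → ℝ} (hG : LGD D) (c : ℝ) {r : ℝ → ℝ} (H : SC r) :
    D (fun α => c * r α) = c * D r := hG.mul c r H

lemma LD_neg {D : (ℝ → ℝ) → ℝ} (hG : LGD D) {r : ℝ → ℝ} (H : SC r) :
    D (fun α => r (-α)) = D r := hG.neg r H

lemma LD_sub {D : (ℝ → ℝ) → ℝ} (hG : LGD D) {r s : ℝ → ℝ} (H : SC r) (H' : SC s) :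
    D (fun α => r α - s α) = D r - D s := by
  have h := LD_add hG H (H'.cmul (-1))
  rw [LD_mul hG (-1) H'] at h
  have e : (fun α => r α + -1 * s α) = fun α => r α - s α := by
    funext α
    ring
  rw [e] at h
  rw [h]
  ring

/-- one-sidedness on windows of length `δ` -/
structure CHD (D : (ℝ → ℝ) → ℝ) (δ κ₀ : ℝ) (g : ℝ → ℝ) : Prop where
  lg : LGD D
  a : ∀ κ₁ : ℝ, κ₁ < 1 → ∀ r : ℝ → ℝ, SC r → (∀ α, κ₁ < |α| → r α = 0) →
    (∀ α, κ₀ < |α| → 0 ≤ r α) → D r ≤ 0
  b : ∀ ρ : ℝ → ℝ, SC ρ → (∀ s, 0 ≤ ρ s) → (∃ a : ℝ, κ₀ < a ∧ ∀ s, s < a → ρ s = 0) →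
    D (Wn (-δ) 0 ρ) ≤ 0
  c : ∃ C : ℝ, ∀ L : ℝ, 1 ≤ L → -(C / L) ≤ D (RL g δ L)
  d : ∀ κ : ℝ, κ < 2 / 3 → ∀ r : ℝ → ℝ, SC r → (∀ α, κ < |α| → r α = 0) → D r = 0

lemma xdecomp0 {D : (ℝ → ℝ) → ℝ} (hG : LGD D) {δ : ℝ} {g : ℝ → ℝ} (hg : GB g) (hδ : 0 < δ)
    {a' a : ℝ} (h1 : 0 < a') (h2 : a' < a) {L : ℝ} (hL : 0 < L) :
    ∃ r₁ : ℝ → ℝ, SC r₁ ∧ (∀ α, 0 ≤ r₁ α) ∧ (∀ α, r₁ α ≤ RL g δ L α) ∧
      (∀ α, a + δ < |α| → r₁ α = 0) ∧
      D (RL g δ L) = D r₁ + 2 * D (Wn (-δ) 0 (wgt g δ L a' a)) := by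
  set ρ := wgt g δ L a' a with hρ
  have Hρ : SC ρ := wgt_SC hg.sc δ hL a' a
  set W : ℝ → ℝ := Wn (-δ) 0 ρ with hW
  have HW : SC W := Wn_SC Hρ _ _
  have HR := RL_SC hg.sc δ hL
  have hgc := hg.sc.cont
  have hsc : Continuous (sst a' a) := (sst_sm a' a).continuous
  have hρ0 : ∀ s, 0 ≤ ρ s := by
    intro s
    simp only [hρ, wgt]
    have := hg.nn ((s + δ / 2) / L)
    have := sst_nonneg a' a s
    positivity
  have hW0 : ∀ α, 0 ≤ W α := fun α => Wn_nonneg hρ0 (by linarith) α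
  set r₁ : ℝ → ℝ := fun α => RL g δ L α - (W α + W (-α)) with hr₁
  have Hr₁ : SC r₁ := HR.sub (HW.add HW.refl)
  -- formula
  set k : ℝ → ℝ := fun t => (1 / δ) * ((1 - sst a' a (t - δ / 2) - sst a' a (-t - δ / 2)) *
    g (t / L)) with hk
  have hkc : Continuous k := by fun_prop
  have hform : ∀ α, r₁ α = ∫ t in (α - δ / 2)..(α + δ / 2), k t := by
    intro α
    have e1 : RL g δ L α = ∫ t in (α - δ / 2)..(α + δ / 2), (1 / δ) * g (t / L) := by
      unfold RL Wn
      rw [intervalIntegral.integral_const_mul]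
      congr 2
    have e2 : ∀ β, W β = ∫ t in (β - δ / 2)..(β + δ / 2),
        (1 / δ) * (sst a' a (t - δ / 2) * g (t / L)) := by
      intro β
      have h4 := intervalIntegral.integral_comp_sub_right (a := β - δ / 2) (b := β + δ / 2) ρ (δ / 2)
      have e3 : ∀ t : ℝ, ρ (t - δ / 2) = (1 / δ) * (sst a' a (t - δ / 2) * g (t / L)) := by
        intro t
        simp only [hρ, wgt]
        rw [sub_add_cancel]
      simp_rw [e3] at h4
      rw [h4]
      simp only [hW, Wn]
      congr 1 <;> ring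
    have e4 : W (-α) = ∫ t in (α - δ / 2)..(α + δ / 2),
        (1 / δ) * (sst a' a (-t - δ / 2) * g (t / L)) := by
      rw [e2]
      have h4 := intervalIntegral.integral_comp_neg (a := α - δ / 2) (b := α + δ / 2)
        (fun t => (1 / δ) * (sst a' a (t - δ / 2) * g (t / L)))
      have e5 : ∀ t : ℝ, (1 / δ) * (sst a' a (-t - δ / 2) * g (-t / L)) =
          (1 / δ) * (sst a' a (-t - δ / 2) * g (t / L)) := by
        intro t
        rw [neg_div, hg.ev]
      simp_rw [e5] at h4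
      rw [h4]
      congr 1 <;> ring
    simp only [hr₁]
    rw [e1, e2 α, e4, ← intervalIntegral.integral_add
      ((by fun_prop : Continuous fun t => (1 / δ) * (sst a' a (t - δ / 2) * g (t / L))).intervalIntegrable _ _)
      ((by fun_prop : Continuous fun t => (1 / δ) * (sst a' a (-t - δ / 2) * g (t / L))).intervalIntegrable _ _),
      ← intervalIntegral.integral_sub
      ((by fun_prop : Continuous fun t => (1 / δ) * g (t / L)).intervalIntegrable _ _)
      ((by fun_prop : Continuous fun t => (1 / δ) * (sst a' a (t - δ / 2) * g (t / L)) +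
        (1 / δ) * (sst a' a (-t - δ / 2) * g (t / L))).intervalIntegrable _ _)]
    refine intervalIntegral.integral_congr fun t _ => ?_
    simp only [hk]
    ring
  have hk0 : ∀ t, 0 ≤ k t := by
    intro t
    have hgn := hg.nn (t / L)
    have : 0 ≤ 1 - sst a' a (t - δ / 2) - sst a' a (-t - δ / 2) := by
      rcases le_total 0 t with h | h
      · rw [sst_zero (x := -t - δ / 2) h2 (by linarith)]
        linarith [sst_le a' a (t - δ / 2)]
      · rw [sst_zero (x := t - δ / 2) h2 (by linarith)]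
        linarith [sst_le a' a (-t - δ / 2)]
    simp only [hk]
    positivity
  refine ⟨r₁, Hr₁, ?_, ?_, ?_, ?_⟩
  · intro α
    rw [hform]
    exact intervalIntegral.integral_nonneg (by linarith) fun t _ => hk0 t
  · intro α
    have h5 := hW0 α
    have h6 := hW0 (-α)
    simp only [hr₁]
    linarith
  · intro α hα
    rw [hform, intervalIntegral.integral_congr (g := fun _ => 0)]
    · simp
    · intro t ht
      rw [uIcc_of_le (by linarith)] at ht
      simp only [hk]
      have : 1 - sst a' a (t - δ / 2) - sst a' a (-t - δ / 2) = 0 := by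
        rcases lt_abs.1 hα with h | h
        · rw [sst_zero (x := -t - δ / 2) h2 (by linarith [ht.1]),
            sst_one (x := t - δ / 2) h2 (by linarith [ht.1])]
          ring
        · rw [sst_zero (x := t - δ / 2) h2 (by linarith [ht.2]),
            sst_one (x := -t - δ / 2) h2 (by linarith [ht.2])]
          ring
      rw [this]
      ring
  · have e6 : D r₁ = D (RL g δ L) - (D W + D W) := by
      rw [hr₁, LD_sub hG HR (HW.add HW.refl), LD_add hG HW HW.refl, LD_neg hG HW]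
    linarith

lemma xdecomp {D : (ℝ → ℝ) → ℝ} {δ κ₀ : ℝ} {g : ℝ → ℝ} (H : CHD D δ κ₀ g) (hg : GB g) (hδ : 0 < δ)
    (hκ₀ : 0 < κ₀) {a' a : ℝ} (h1 : κ₀ < a') (h2 : a' < a) (h3 : a + δ < 1) {L : ℝ} (hL : 0 < L) :
    D (RL g δ L) ≤ 2 * D (Wn (-δ) 0 (wgt g δ L a' a)) := by
  obtain ⟨r₁, Hr₁, hpos, -, hzero, e⟩ := xdecomp0 H.lg hg hδ (hκ₀.trans h1) h2 hL
  have hD1 := H.a (a + δ) h3 r₁ Hr₁ hzero fun α _ => hpos α
  linarith

/-- the windows are exact -/
theorem xwin_zero {D : (ℝ → ℝ) → ℝ} {δ κ₀ : ℝ} {g : ℝ → ℝ} (H : CHD D δ κ₀ g) (hg : GB g) (hδ : 0 < δ)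
    (hκ₀ : 0 < κ₀) {ρ : ℝ → ℝ} (Hρ : SC ρ) (hρ0 : ∀ s, 0 ≤ ρ s) {a : ℝ} (h1 : κ₀ < a)
    (h3 : a + δ < 1) (hs : ∀ s, s < a → ρ s = 0) : D (Wn (-δ) 0 ρ) = 0 := by
  refine le_antisymm (H.b ρ Hρ hρ0 ⟨a, h1, hs⟩) ?_
  obtain ⟨C, hC⟩ := H.c
  obtain ⟨m, hm⟩ := Hρ.cont.bounded_above_of_compact_support Hρ.cs
  have hm0 : 0 ≤ m := (norm_nonneg _).trans (hm 0)
  obtain ⟨A, hA, hAs⟩ := Hρ.supp
  obtain ⟨τ, hτ, hτg⟩ : ∃ τ : ℝ, 0 < τ ∧ ∀ x, |x| < τ → g 0 / 2 < g x := by
    have hgc := hg.sc.cont.continuousAt (x := 0)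
    have h4 := hgc.eventually (lt_mem_nhds (show g 0 / 2 < g 0 by linarith [hg.pos]))
    obtain ⟨τ, hτ, h5⟩ := Metric.eventually_nhds_iff.1 h4
    exact ⟨τ, hτ, fun x hx => h5 (by simpa [Real.dist_eq] using hx)⟩
  set a' : ℝ := (κ₀ + a) / 2 with ha'
  have b1 : κ₀ < a' := by rw [ha']; linarith
  have b2 : a' < a := by rw [ha']; linarith
  set M : ℝ := m * δ * (2 / g 0) with hM
  have hg0 := hg.pos
  have hM0 : 0 ≤ M := by positivity
  have hdom : ∀ L : ℝ, 1 ≤ L → (A + δ) / τ < L → ∀ s, 0 ≤ M * wgt g δ L a' a s - ρ s := by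
    intro L hL1 hL s
    have hL0 : 0 < L := by linarith
    have hrn : 0 ≤ wgt g δ L a' a s := by
      unfold wgt
      have := hg.nn ((s + δ / 2) / L)
      have := sst_nonneg a' a s
      positivity
    by_cases h5 : s < a
    · rw [hs s h5]
      have : 0 ≤ M * wgt g δ L a' a s := by positivity
      linarith
    · push Not at h5
      by_cases h6 : A < |s|
      · rw [hAs s h6]
        have : 0 ≤ M * wgt g δ L a' a s := by positivity
        linarith
      · push Not at h6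
        have h7 : |(s + δ / 2) / L| < τ := by
          rw [abs_div, abs_of_pos hL0, div_lt_iff₀ hL0]
          rw [div_lt_iff₀ hτ] at hL
          have h8 : |s + δ / 2| ≤ |s| + δ / 2 := by
            have := abs_add_le s (δ / 2)
            rwa [abs_of_pos (show 0 < δ / 2 by positivity)] at this
          linarith
        have h8 := hτg _ h7
        have h9 : wgt g δ L a' a s = (1 / δ) * g ((s + δ / 2) / L) := by
          unfold wgt
          rw [sst_one b2 h5, one_mul]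
        have h10 : ρ s ≤ m := (le_abs_self _).trans (hm s)
        have h11 : m ≤ M * wgt g δ L a' a s := by
          rw [h9, hM]
          have h12 : m * δ * (2 / g 0) * (1 / δ * g ((s + δ / 2) / L)) =
              m * (g ((s + δ / 2) / L) / (g 0 / 2)) := by
            field_simp
          rw [h12]
          have h13 : 1 ≤ g ((s + δ / 2) / L) / (g 0 / 2) := by
            rw [le_div_iff₀ (by positivity)]
            linarith
          nlinarith
        linarith
  have hkey : ∀ L : ℝ, 1 ≤ L → (A + δ) / τ < L → -(M * C / L) ≤ 2 * D (Wn (-δ) 0 ρ) := by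
    intro L hL1 hL
    have hL0 : 0 < L := by linarith
    have hrSC := wgt_SC hg.sc δ hL0 a' a
    have hSC : SC fun s => M * wgt g δ L a' a s - ρ s := (hrSC.cmul M).sub Hρ
    have h4 := H.b _ hSC (hdom L hL1 hL) ⟨a', b1, fun s hs' => by
      have e1 : wgt g δ L a' a s = 0 := by
        unfold wgt
        rw [sst_zero b2 hs'.le]
        ring
      rw [e1, hs s (by linarith)]
      ring⟩
    have e2 : Wn (-δ) 0 (fun s => M * wgt g δ L a' a s - ρ s) =
        fun x => M * Wn (-δ) 0 (wgt g δ L a' a) x - Wn (-δ) 0 ρ x := by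
      funext x
      rw [Wn_sub (hrSC.cmul M).cont Hρ.cont, Wn_cmul]
    rw [e2, LD_sub H.lg ((Wn_SC hrSC _ _).cmul M) (Wn_SC Hρ _ _), LD_mul H.lg M (Wn_SC hrSC _ _)] at h4
    have h5 := xdecomp H hg hδ hκ₀ b1 b2 h3 hL0
    have h6 := hC L hL1
    have h7 : M * (-(C / L)) ≤ M * (2 * D (Wn (-δ) 0 (wgt g δ L a' a))) := by
      gcongr
      linarith
    have e3 : M * C / L = M * (C / L) := by ring
    rw [e3]
    linarith
  -- the limit
  have hlim : Tendsto (fun L : ℝ => -(M * C / L)) atTop (𝓝 0) := by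
    have := (tendsto_const_nhds (x := M * C)).div_atTop (tendsto_id (α := ℝ) (x := atTop))
    simpa using this.neg
  have h5 : 0 ≤ 2 * D (Wn (-δ) 0 ρ) := by
    refine le_of_tendsto hlim ?_
    filter_upwards [eventually_ge_atTop 1, eventually_gt_atTop ((A + δ) / τ)] with L h6 h7
    exact hkey L h6 h7
  linarith

/-- functions supported inside one period -/
theorem xloc_zero {D : (ℝ → ℝ) → ℝ} {δ κ₀ : ℝ} {g : ℝ → ℝ} (H : CHD D δ κ₀ g) (hg : GB g) (hδ : 0 < δ)
    (hκ₀ : 0 < κ₀) {lam κ₁ : ℝ} (h1 : κ₀ < lam) (h2 : lam + δ < κ₁) (h3 : κ₁ < 1) {f : ℝ → ℝ}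
    (Hf : SC f) (hl : ∀ x, x < lam → f x = 0) (hr : ∀ x, κ₁ < x → f x = 0) : D f = 0 := by
  set a : ℝ := (κ₀ + lam) / 2 with ha
  set b : ℝ := (κ₁ + 1) / 2 - δ with hb
  have hκa : κ₀ < a := by rw [ha]; linarith
  have hal : a < lam := by rw [ha]; linarith
  have hab : a < b := by rw [hb]; linarith
  have hb1 : b + δ < 1 := by rw [hb]; linarith
  have hbκ : κ₁ < b + δ := by rw [hb]; linarith
  set B : ContDiffBump ((a + b) / 2) := ⟨(b - a) / 4, (b - a) / 2, by linarith, by linarith⟩ with hB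
  have HB : SC B := ⟨B.contDiff, B.hasCompactSupport⟩
  have hBpos : ∀ x, a < x → x < b → 0 < B x := by
    intro x hx1 hx2
    refine B.pos_of_mem_ball ?_
    rw [Metric.mem_ball, Real.dist_eq, abs_lt]
    simp only [hB]
    constructor <;> linarith
  have hBz1 : ∀ x, x ≤ a → B x = 0 := by
    intro x hx
    refine B.zero_of_le_dist ?_
    rw [Real.dist_eq]
    simp only [hB]
    refine le_trans ?_ (neg_le_abs _)
    linarith
  have hBz2 : ∀ x, b ≤ x → B x = 0 := by
    intro x hx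
    refine B.zero_of_le_dist ?_
    rw [Real.dist_eq]
    simp only [hB]
    refine le_trans ?_ (le_abs_self _)
    linarith
  have hB0 : ∀ x, 0 ≤ B x := fun x => B.nonneg
  have hDB : D (Wn (-δ) 0 B) = 0 :=
    xwin_zero H hg hδ hκ₀ HB hB0 hκa (by linarith) fun s hs => hBz1 s hs.le
  set W : ℝ → ℝ := Wn (-δ) 0 B with hW
  have HW : SC W := Wn_SC HB _ _
  have hW0 : ∀ x, 0 ≤ W x := fun x => Wn_nonneg hB0 (by linarith) x
  have hWpos : ∀ x ∈ Icc lam κ₁, 0 < W x := by
    intro x hx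
    have c1 : max (x - δ) a < min x b := by
      refine max_lt (lt_min (by linarith) ?_) (lt_min ?_ hab)
      · linarith [hx.2]
      · linarith [hx.1]
    have c2 : 0 < ∫ s in (max (x - δ) a)..(min x b), B s := by
      refine intervalIntegral.intervalIntegral_pos_of_pos_on
        (HB.cont.intervalIntegrable _ _) (fun s hs => ?_) c1
      exact hBpos s (lt_of_le_of_lt (le_max_right _ _) hs.1) (lt_of_lt_of_le hs.2 (min_le_right _ _))
    refine lt_of_lt_of_le c2 ?_
    simp only [hW, Wn]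
    rw [add_zero, ← sub_eq_add_neg]
    exact intervalIntegral.integral_mono_interval (le_max_left _ _) c1.le (min_le_left _ _)
      (ae_of_all _ hB0) (HB.cont.intervalIntegrable _ _)
  obtain ⟨x₀, hx₀, hmin⟩ := isCompact_Icc.exists_isMinOn (nonempty_Icc.2 (by linarith : lam ≤ κ₁))
    HW.cont.continuousOn
  have hm0 := hWpos x₀ hx₀
  obtain ⟨M, hM⟩ := Hf.cont.bounded_above_of_compact_support Hf.cs
  have hM0 : 0 ≤ M := (norm_nonneg _).trans (hM 0)
  set K : ℝ := M / W x₀ with hK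
  have hK0 : 0 ≤ K := by positivity
  have hdom : ∀ x, |f x| ≤ K * W x := by
    intro x
    by_cases hx : x ∈ Icc lam κ₁
    · have h4 : W x₀ ≤ W x := hmin hx
      calc |f x| ≤ M := hM x
        _ = K * W x₀ := by rw [hK]; field_simp
        _ ≤ K * W x := by gcongr
    · have : f x = 0 := by
        rw [mem_Icc, not_and_or] at hx
        rcases hx with h | h
        · exact hl x (not_le.1 h)
        · exact hr x (not_le.1 h)
      rw [this, abs_zero]
      have := hW0 x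
      positivity
  have hWz : ∀ x, b + δ < |x| → W x = 0 := by
    intro x hx
    simp only [hW, Wn]
    rw [intervalIntegral.integral_congr (g := fun _ => 0)]
    · simp
    · intro s hs
      rw [uIcc_of_le (by linarith)] at hs
      rcases lt_abs.1 hx with h | h
      · exact hBz2 s (by linarith [hs.1])
      · exact hBz1 s (by linarith [hs.2])
  have hfz : ∀ x, b + δ < |x| → f x = 0 := by
    intro x hx
    rcases lt_abs.1 hx with h | h
    · exact hr x (by linarith)
    · exact hl x (by linarith)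
  have hc : ∀ c : ℝ, |c| = 1 → c * D f ≤ 0 := by
    intro c hc
    have h4 := H.a (b + δ) hb1 (fun x => K * W x + c * f x) ((HW.cmul K).add (Hf.cmul c))
      (fun x hx => by rw [hWz x hx, hfz x hx]; ring) (fun x _ => by
        have h5 := hdom x
        have h6 := neg_abs_le (c * f x)
        rw [abs_mul, hc, one_mul] at h6
        linarith)
    rw [LD_add H.lg (HW.cmul K) (Hf.cmul c), LD_mul H.lg K HW, LD_mul H.lg c Hf, hDB] at h4
    linarith
  have d1 := hc 1 (by norm_num)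
  have d2 := hc (-1) (by norm_num)
  linarith

/-- invariance under translations by `δ` -/
theorem xshift_eq {D : (ℝ → ℝ) → ℝ} {δ κ₀ : ℝ} {g : ℝ → ℝ} (H : CHD D δ κ₀ g) (hg : GB g) (hδ : 0 < δ)
    (hκ₀ : 0 < κ₀) {a : ℝ} (h1 : κ₀ < a) (h2 : a + δ < 1) {f : ℝ → ℝ}
    (Hf : SC f) (hl : ∀ x, x < a → f x = 0) : D f = D (fun x => f (x - δ)) := by
  set a' : ℝ := (κ₀ + a) / 2 with ha'
  have b1 : κ₀ < a' := by rw [ha']; linarith
  have b2 : a' < a := by rw [ha']; linarith
  obtain ⟨A, hA, hAs⟩ := Hf.supp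
  have Hd := Hf.deriv
  obtain ⟨M, hM⟩ := Hd.cont.bounded_above_of_compact_support Hd.cs
  have hM0 : 0 ≤ M := (norm_nonneg _).trans (hM 0)
  have hdz1 : ∀ x, x < a → deriv f x = 0 := by
    intro x hx
    have : f =ᶠ[𝓝 x] fun _ => 0 := by
      filter_upwards [gt_mem_nhds hx] with y hy
      exact hl y hy
    rw [this.deriv_eq, deriv_const]
  have hdz2 : ∀ x, A < |x| → deriv f x = 0 := fun x hx => deriv_supp hAs x hx
  set β : ℝ → ℝ := fun x => big A hA x * sst a' a x with hβ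
  have Hβ : SC β := (big_SC hA).mulS (sst_sm a' a)
  have hβ0 : ∀ x, 0 ≤ β x := fun x => mul_nonneg (big A hA).nonneg (sst_nonneg _ _ _)
  have hβz : ∀ x, x < a' → β x = 0 := fun x hx => by
    simp only [hβ]
    rw [sst_zero b2 hx.le, mul_zero]
  have hβ1 : ∀ x, a ≤ x → |x| ≤ A → β x = 1 := fun x hx hx2 => by
    simp only [hβ]
    rw [sst_one b2 hx, big_one hA hx2, mul_one]
  have z1 : D (Wn (-δ) 0 β) = 0 := xwin_zero H hg hδ hκ₀ Hβ hβ0 b1 (by linarith) hβz
  have z2 : D (Wn (-δ) 0 (fun s => deriv f s + M * β s)) = 0 := by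
    refine xwin_zero H hg hδ hκ₀ (Hd.add (Hβ.cmul M)) (fun s => ?_) b1 (by linarith) fun s hs => ?_
    · by_cases h4 : s < a
      · rw [hdz1 s h4]
        have := hβ0 s
        positivity
      · by_cases h5 : A < |s|
        · rw [hdz2 s h5]
          have := hβ0 s
          positivity
        · push Not at h4 h5
          rw [hβ1 s h4 h5]
          have h6 := hM s
          rw [Real.norm_eq_abs] at h6
          linarith [neg_abs_le (deriv f s)]
    · rw [hdz1 s (by linarith), hβz s hs]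
      ring
  have e1 : Wn (-δ) 0 (fun s => deriv f s + M * β s) =
      fun x => (f x - f (x - δ)) + M * Wn (-δ) 0 β x := by
    funext x
    rw [Wn_add Hd.cont (Hβ.cmul M).cont, Wn_cmul]
    congr 1
    unfold Wn
    rw [intervalIntegral.integral_deriv_eq_sub' _ rfl (fun y _ => Hf.diff y) Hd.cont.continuousOn,
      add_zero, ← sub_eq_add_neg]
  rw [e1, LD_add H.lg (Hf.sub (Hf.transl δ)) ((Wn_SC Hβ _ _).cmul M), LD_mul H.lg M (Wn_SC Hβ _ _), z1, mul_zero, add_zero,
    LD_sub H.lg Hf (Hf.transl δ)] at z2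
  linarith

/-- functions supported to the right -/
theorem xright_zero {D : (ℝ → ℝ) → ℝ} {δ κ₀ : ℝ} {g : ℝ → ℝ} (H : CHD D δ κ₀ g) (hg : GB g) (hδ : 0 < δ)
    (hκ₀ : 0 < κ₀) {lam κ₁ : ℝ} (h1 : κ₀ < lam) (h2 : lam + δ < κ₁) (h3 : κ₁ < 1) (n : ℕ) :
    ∀ f : ℝ → ℝ, SC f → (∀ x, x < lam → f x = 0) → (∀ x, κ₁ + n * δ < x → f x = 0) →
      D f = 0 := by
  induction n with
  | zero =>
    intro f Hf hl hr
    simp only [Nat.cast_zero, zero_mul, add_zero] at hr
    exact xloc_zero H hg hδ hκ₀ h1 h2 h3 Hf hl hr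
  | succ n ih =>
    intro f Hf hl hr
    -- the cut off
    set χ : ℝ → ℝ := sst (lam + δ) κ₁ with hχ
    have hχs := sst_sm (lam + δ) κ₁
    have H1 : SC fun x => f x * χ x := Hf.mulS hχs
    have H2 : SC fun x => f x * (1 - χ x) := Hf.mulS (contDiff_const.sub hχs)
    have z2 : D (fun x => f x * (1 - χ x)) = 0 := by
      refine xloc_zero H hg hδ hκ₀ h1 h2 h3 H2 (fun x hx => by rw [hl x hx, zero_mul])
        fun x hx => ?_
      simp only [hχ]
      rw [sst_one h2 hx.le]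
      ring
    have H3 : SC fun x => f (x + δ) * χ (x + δ) := by
      have := H1.transl (-δ)
      simpa only [sub_neg_eq_add] using this
    have z1 : D (fun x => f (x + δ) * χ (x + δ)) = 0 := by
      refine ih _ H3 (fun x hx => ?_) fun x hx => ?_
      · simp only [hχ]
        rw [sst_zero h2 (by linarith), mul_zero]
      · rw [hr (x + δ) (by push_cast; linarith), zero_mul]
    have z3 := xshift_eq H hg hδ hκ₀ h1 (by linarith) H3 (fun x hx => by
      simp only [hχ]
      rw [sst_zero h2 (by linarith), mul_zero])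
    simp only [sub_add_cancel] at z3
    have e : f = fun x => f x * χ x + f x * (1 - χ x) := by
      funext x
      ring
    rw [e, LD_add H.lg H1 H2, z2, ← z3, z1, add_zero]

/-- the functional vanishes -/
theorem xall_zero {D : (ℝ → ℝ) → ℝ} {δ κ₀ : ℝ} {g : ℝ → ℝ} (H : CHD D δ κ₀ g) (hg : GB g) (hδ : 0 < δ)
    (hκ₀ : 0 < κ₀) {lam κ₁ : ℝ} (h1 : κ₀ < lam) (h2 : lam + δ < κ₁) (h3 : κ₁ < 1)
    (h4 : lam < 1 / 2) {r : ℝ → ℝ} (Hr : SC r) : D r = 0 := by
  have hlam : 0 < lam := by linarith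
  have hright : ∀ f : ℝ → ℝ, SC f → (∀ x, x < lam → f x = 0) → D f = 0 := by
    intro f Hf hl
    obtain ⟨A, hA, hAs⟩ := Hf.supp
    obtain ⟨n, hn⟩ := exists_nat_gt (A / δ)
    rw [div_lt_iff₀ hδ] at hn
    refine xright_zero H hg hδ hκ₀ h1 h2 h3 n f Hf hl fun x hx => hAs x ?_
    exact lt_of_lt_of_le (by linarith) (le_abs_self x)
  -- the cut off near `0`
  set χ : ℝ → ℝ := fun x => sst lam (1 / 2) x with hχ
  have hχs : ContDiff ℝ (⊤ : ℕ∞) χ := sst_sm _ _
  have H1 : SC fun x => r x * χ x := Hr.mulS hχs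
  have H2 : SC fun x => r (-x) * χ x := Hr.refl.mulS hχs
  have z1 : D (fun x => r x * χ x) = 0 := hright _ H1 fun x hx => by
    simp only [hχ]
    rw [sst_zero h4 hx.le, mul_zero]
  have z2 : D (fun x => r (-x) * χ x) = 0 := hright _ H2 fun x hx => by
    simp only [hχ]
    rw [sst_zero h4 hx.le, mul_zero]
  have z2' : D (fun x => r x * χ (-x)) = 0 := by
    have := LD_neg H.lg H2
    simp only [neg_neg] at this
    rw [this, z2]
  have H2' : SC fun x => r x * χ (-x) := Hr.mulS (hχs.comp contDiff_neg)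
  have H3 : SC fun x => r x * (1 - χ x - χ (-x)) :=
    Hr.mulS ((contDiff_const.sub hχs).sub (hχs.comp contDiff_neg))
  have z3 : D (fun x => r x * (1 - χ x - χ (-x))) = 0 := by
    refine H.d (1 / 2) (by norm_num) _ H3 fun x hx => ?_
    rcases lt_abs.1 hx with h | h
    · simp only [hχ]
      rw [sst_one h4 h.le, sst_zero h4 (by linarith)]
      ring
    · simp only [hχ]
      rw [sst_zero (x := x) h4 (by linarith), sst_one h4 h.le]
      ring
  have e : r = fun x => (r x * χ x + r x * χ (-x)) + r x * (1 - χ x - χ (-x)) := by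
    funext x
    ring
  rw [e, LD_add H.lg (H1.add H2') H3, LD_add H.lg H1 H2', z1, z2', z3]
  ring

/-- the far windows force `μ = 1` -/
theorem xmu_one {D : (ℝ → ℝ) → ℝ} {μ δ : ℝ} (hδ : 0 < δ) (hδ1 : δ < 1) (h : FN D μ δ) :
    μ = 1 := by
  have hg := gb_B2
  obtain ⟨C, hC, hlow⟩ := h.low _ hg.sc CT_B2_nonneg
  obtain ⟨m, hm⟩ := hg.sc.cont.bounded_above_of_compact_support hg.sc.cs
  have hm0 : 0 ≤ m := (norm_nonneg _).trans (hm 0)
  have hLG : LGD D := ⟨h.add, h.mul, h.neg⟩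
  set η : ℝ → ℝ := fun x => big (1 + δ) (by linarith) x with hη
  have Hη : SC η := big_SC _
  have hη0 : ∀ x, 0 ≤ η x := fun x => (big (1 + δ) (by linarith)).nonneg
  set C₁ : ℝ := m * (mg η + 2 * D η) with hC₁
  have hRLm : ∀ L : ℝ, ∀ α, RL (B2 1 one_pos) δ L α ≤ m := by
    intro L α
    unfold RL Wn
    have h1 := intervalIntegral.norm_integral_le_of_norm_le_const (a := α + -(δ / 2))
      (b := α + δ / 2) (f := fun s => B2 1 one_pos (s / L)) (C := m) (fun s _ => hm _)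
    have e1 : α + δ / 2 - (α + -(δ / 2)) = δ := by ring
    rw [e1, abs_of_pos hδ] at h1
    calc 1 / δ * ∫ s in (α + -(δ / 2))..(α + δ / 2), B2 1 one_pos (s / L) ≤
        1 / δ * (m * δ) := by
          gcongr
          exact (le_abs_self _).trans h1
      _ = m := by field_simp
  have key : ∀ L : ℝ, 1 ≤ L → (μ - 1) * CT (B2 1 one_pos) 0 ≤ (|C₁| + C) / L := by
    intro L hL
    have hL0 : 0 < L := by linarith
    obtain ⟨r₁, Hr₁, hpos, hle, hzero, e1⟩ := xdecomp0 hLG hg hδ (a' := 1 - δ / 2) (a := 1)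
      (by linarith) (by linarith) hL0
    have hw : D (Wn (-δ) 0 (wgt (B2 1 one_pos) δ L (1 - δ / 2) 1)) ≤ 0 := by
      refine h.win _ (wgt_SC hg.sc δ hL0 _ _) (fun s => ?_)
        ⟨1 - δ / 2, by linarith, fun s hs => ?_⟩
      · unfold wgt
        have := hg.nn ((s + δ / 2) / L)
        have := sst_nonneg (1 - δ / 2) 1 s
        positivity
      · unfold wgt
        rw [sst_zero (by linarith) hs.le]
        ring
    have h2 := h.nn (fun x => m * η x - r₁ x) ((Hη.cmul m).sub Hr₁) (fun α => by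
      by_cases hα : 1 + δ < |α|
      · show 0 ≤ m * η α - r₁ α
        rw [hzero α hα, sub_zero]
        exact mul_nonneg hm0 (hη0 α)
      · simp only [hη]
        rw [big_one _ (not_lt.1 hα)]
        linarith [hle α, hRLm L α])
    rw [mg_sub (Hη.cmul m) Hr₁, mg_mul, LD_sub hLG (Hη.cmul m) Hr₁, LD_mul hLG m Hη] at h2
    have h3 := mg_nonneg hpos
    have h4 := hlow L hL
    rw [e1] at h4
    have h5 : (μ - 1) * L * CT (B2 1 one_pos) 0 ≤ |C₁| + C := by
      have h6 : C / L ≤ C := div_le_self hC.le hL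
      have h7 := le_abs_self C₁
      linarith
    rw [le_div_iff₀ hL0]
    linarith
  have h1 := arch key
  have h2 := CT_B2_pos
  have h3 : μ ≤ 1 := by
    by_contra hcon
    push Not at hcon
    have : 0 < (μ - 1) * CT (B2 1 one_pos) 0 := mul_pos (by linarith) h2
    linarith
  exact le_antisymm h3 h.mu

/-- the functional vanishes -/
theorem main : S_FN := by
  intro D μ δ hδ hδ1 h r Hr
  have hμ := xmu_one hδ hδ1 h
  have hg := gb_B2
  obtain ⟨C, hC, hlow⟩ := h.low _ hg.sc CT_B2_nonneg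
  have hCH : CHD D δ ((1 - δ) / 8) (B2 1 one_pos) := by
    refine ⟨⟨h.add, h.mul, h.neg⟩, ?_, ?_, ⟨C, fun L hL => ?_⟩, ?_⟩
    · intro κ₁ hκ₁ r Hr hs _
      exact (h.band r Hr ⟨κ₁, hκ₁, hs⟩).le
    · rintro ρ Hρ hρ ⟨a, ha, hz⟩
      exact h.win ρ Hρ hρ ⟨a, by linarith, hz⟩
    · have h1 := hlow L hL
      rw [hμ] at h1
      have hL0 : 0 < L := by linarith
      have h2 : 0 ≤ C / L := by positivity
      have h3 : (1 - 1) * L * CT (B2 1 one_pos) 0 - C / L = -(C / L) := by ring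
      rw [h3] at h1
      linarith
    · intro κ hκ r Hr hs
      exact h.band r Hr ⟨κ, by linarith, hs⟩
  exact xall_zero hCH hg hδ (by linarith) (lam := (1 - δ) / 4) (κ₁ := (1 + δ) / 2) (by linarith)
    (by linarith) (by linarith) (by linarith) Hr

end Pool.Agent.N93.PX6
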